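import Pool.Agent.Q22.AC.Main

/-!
# Algebraically closed associative algebras exist

`FreeOver P R ℕ` is the free product `R * P⟨x_0, x_1, …⟩` of `P`-algebras, `const` is the inclusion
of `R`, `evalAt c` is the homomorphism to `R` which is the identity on `R` and sends `x_i` to `c i`,
and `AlgClosedIn P R ℕ` says that every equation `f = 0` with `f ∈ R * P⟨x_0, x_1, …⟩` and `f ∉ R`
has a solution in `R`.  These definitions are those of `OneVariable.lean`.
-/

namespace Pool.Agent.Results.MP_4b1745_al.AlgClosedAlgebra

open Pool.Agent.Results.MP_4b1745_al.OneVariable (FreeOver evalAt const AlgClosedIn)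
open Pool.Agent.Q22.AC

/-- **Algebraically closed associative algebras exist.**  There are a field `P` of characteristic
zero and a nonzero associative `P`-algebra `R` with identity such that every equation over `R` in
countably many unknowns has a solution in `R`; moreover `R` is a division ring with centre `P`. -/
theorem result : ∃ (P R : Type) (_ : Field P) (_ : Ring R) (_ : Algebra P R),
    Nontrivial R ∧ AlgClosedIn P R ℕ ∧ CharZero P ∧ (∀ x : R, x ≠ 0 → IsUnit x) ∧
      Set.range (algebraMap P R) = Set.center R := by
  obtain ⟨A, ⟨p, q, h1, h2, h3, h4⟩, hA⟩ := exists_closed'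
  refine ⟨Subring.center (SR A), SR A, inferInstance, inferInstance, inferInstance, inferInstance,
    main A h1 h2 h3 h4 hA, inferInstance, fun x hx => (isUnit_or x).resolve_right hx, ?_⟩
  ext x
  constructor
  · rintro ⟨c, rfl⟩
    exact c.2
  · intro hx
    exact ⟨⟨x, hx⟩, rfl⟩

end Pool.Agent.Results.MP_4b1745_al.AlgClosedAlgebra
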